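import Mathlib
import Pool.Agent.MP_5b99fd_an.Fin

/-!
The best constant of the weighted Hardy-Poincare inequality valid on every convex domain.
-/

set_option autoImplicit false

open MeasureTheory
open scoped ContDiff

namespace Pool.Agent.Results.MP_5b99fd_an.ConvexSharp

/-- The quotients of the problem file with both integrals and the mean zero condition taken over
an open convex set `K`, for all such `K` and all smooth compactly supported `u` that do not
vanish identically on `K`. -/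
def quotients (n : ℕ) (α : ℝ) : Set ℝ :=
  {q | ∃ (K : Set (EuclideanSpace ℝ (Fin n))) (u : EuclideanSpace ℝ (Fin n) → ℝ),
    IsOpen K ∧ Convex ℝ K ∧ ContDiff ℝ ∞ u ∧ HasCompactSupport u ∧ (∃ x ∈ K, u x ≠ 0) ∧
    ∫ x in K, (1 + ‖x‖ ^ 2) ^ (α - 1) * u x = 0 ∧
    q = (∫ x in K, (1 + ‖x‖ ^ 2) ^ α * ‖gradient u x‖ ^ 2) /
      ∫ x in K, (1 + ‖x‖ ^ 2) ^ (α - 1) * u x ^ 2}

open Pool.Agent.MP_5b99fd_an

theorem glb {m : ℕ} {α Λ : ℝ} (h : (0 ≤ Λ ∧ LB m (1 - α) Λ) ∧
    ∀ L, 0 ≤ L → LB m (1 - α) L → L ≤ Λ) : IsGLB (quotients (m + 1) α) Λ := by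
  have pos : ∀ (K : Set (Eu (m + 1))) (u : Eu (m + 1) → ℝ), IsOpen K → Continuous u →
      HasCompactSupport u → (∃ x ∈ K, u x ≠ 0) →
      0 < ∫ x in K, (1 + ‖x‖ ^ 2) ^ (α - 1) * u x ^ 2 := by
    rintro K u hK cu hs ⟨x, hx, h0⟩
    have c : Continuous fun x : Eu (m + 1) => (1 + ‖x‖ ^ 2) ^ (α - 1) * u x ^ 2 :=
      (rho_cont _).mul (cu.pow 2)
    rw [integral_pos_iff_support_of_nonneg (fun x => by positivity)
      (c.integrable_of_hasCompactSupport (HasCompactSupport.intro hs fun y hy => by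
        simp [image_eq_zero_of_notMem_tsupport hy])).integrableOn,
      Measure.restrict_apply c.isOpen_support.measurableSet]
    exact (c.isOpen_support.inter hK).measure_pos _ ⟨x, show _ ≠ _ by positivity, hx⟩
  have gr : ∀ (u : Eu (m + 1) → ℝ) x, ‖gradient u x‖ = ‖fderiv ℝ u x‖ := fun u x => by
    simp [gradient]
  simp only [LB, neg_sub, sub_sub_cancel] at h
  constructor
  · rintro _ ⟨K, u, h1, h2, h3, h4, h5, h6, rfl⟩
    rw [le_div_iff₀ (pos K u h1 h3.continuous h4 h5)]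
    simpa only [gr] using h.1.2 K u h1 h2 h3 h4 h6
  · intro L hL
    rcases le_total L 0 with L0 | L0
    · exact L0.trans h.1.1
    refine h.2 L L0 fun K u h1 h2 h3 h4 h6 => ?_
    by_cases h5 : ∃ x ∈ K, u x ≠ 0
    · have := hL ⟨K, u, h1, h2, h3, h4, h5, h6, rfl⟩
      rw [le_div_iff₀ (pos K u h1 h3.continuous h4 h5)] at this
      simpa only [gr] using this
    · push Not at h5
      rw [setIntegral_congr_fun h1.measurableSet (g := fun _ => 0) fun x hx => by simp [h5 x hx]]
      simpa using integral_nonneg fun x => by positivity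

theorem result (n : ℕ) (hn : 2 ≤ n) (α : ℝ) (hα : α < -(((n : ℝ) - 2) / 2)) :
    IsGLB (quotients n α)
      (if α ≤ -(n : ℝ) then -2 * α
       else if α < 1 - (n : ℝ) * (n + 1) / (2 * (n - 1)) then
         2 * n * (1 - α) * (1 - 2 * α - n) / ((n : ℝ) + 1) ^ 2
       else ((n : ℝ) + 2 * α - 2) ^ 2 / 4) := by
  obtain ⟨m, rfl⟩ : ∃ m, n = m + 1 := ⟨n - 1, by omega⟩
  have hm : 1 ≤ m := by omega
  have m1 : (1 : ℝ) ≤ m := by exact_mod_cast hm
  push_cast at hα ⊢
  have m2 : (0 : ℝ) < 2 * (m + 1 - 1) := by linarith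
  have m3 : (0 : ℝ) < m + 2 := by linarith
  split_ifs with h1 h2
  · convert glb (case1 (β := 1 - α) hm (by linarith)) using 1
    ring
  · rw [lt_sub_comm, div_lt_iff₀ m2] at h2
    convert glb (case2 (β := 1 - α) (b := 2 * (1 - α) / (m + 2)) hm (by field_simp)
      (by rw [← mul_div_assoc, lt_div_iff₀ m3]; linarith)
      (by rw [div_le_iff₀ m3]; linarith [not_le.1 h1])) using 1
    field_simp
    ring
  · rw [not_lt, sub_le_comm, le_div_iff₀ m2] at h2
    convert glb (case3 (β := 1 - α) (p := -(m + 1 + 2 * α - 2) / 2) hm (by ring) (by linarith)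
      (by linarith)) using 1
    ring

end Pool.Agent.Results.MP_5b99fd_an.ConvexSharp
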